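import Pool.Agent.H9.Lib.R_seed8.W180.OP.Global

set_option autoImplicit false

/-!
Extension of the base field; finiteness of the set of crossing points.
-/

namespace Pool.Agent.W180.OP

open MvPolynomial Finset

variable {K : Type} [Field K]

/-- base change -/
noncomputable def bc (L : Type) [Field L] [Algebra K L] {n : ℕ} (F : MvPolynomial (Fin n) K) :
    MvPolynomial (Fin n) L := map (algebraMap K L) F

lemma eval_bc {L : Type} [Field L] [Algebra K L] {n : ℕ} (F : MvPolynomial (Fin n) K)
    (x : Fin n → L) : eval x (bc L F) = aeval x F := by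
  rw [bc, eval_map, aeval_def]

lemma bc_ne {L : Type} [Field L] [Algebra K L] {n : ℕ} {F : MvPolynomial (Fin n) K} (h : F ≠ 0) :
    bc L F ≠ 0 := by
  intro h0
  apply h
  exact map_injective _ (algebraMap K L).injective (by simpa [bc] using h0)

lemma bc_hom {L : Type} [Field L] [Algebra K L] {n d : ℕ} {F : MvPolynomial (Fin n) K}
    (h : F.IsHomogeneous d) : (bc L F).IsHomogeneous d := h.map _

lemma SNC.bc {q : ℕ} {F : Fin q → MvPolynomial (Fin 3) K} (hS : SNC F) (L : Type) [Field L]
    [Algebra K L] : SNC fun i => bc L (F i) := by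
  intro L' _ _ x hx
  let _ : Algebra K L' := ((algebraMap L L').comp (algebraMap K L)).toAlgebra
  have : IsScalarTower K L L' := IsScalarTower.of_algebraMap_eq fun _ => rfl
  have hae : ∀ P : MvPolynomial (Fin 3) K, aeval x (OP.bc L P) = aeval x P := fun P => by
    rw [OP.bc, aeval_map_algebraMap]
  have h1 := hS L' x hx
  set e : {j : Fin q // aeval x (OP.bc L (F j)) = 0} → {j : Fin q // aeval x (F j) = 0} :=
    fun j => ⟨j.1, by rw [← hae]; exact j.2⟩ with he
  have hinj : Function.Injective e := by
    intro a b hab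
    apply Subtype.ext
    exact congrArg (fun t : {j : Fin q // aeval x (F j) = 0} => t.1) hab
  have h2 := h1.comp e hinj
  convert h2 using 1
  funext j i
  simp only [Function.comp_apply, he]
  rw [← hae]
  congr 1
  rw [OP.bc, OP.bc, pderiv_map]

/-- transport of the rationality of common zeros -/
lemma common_bc {F G : MvPolynomial (Fin 3) K} {ι : Type} (Y : ι → Fin 3 → K)
    (h : ∀ (L : Type) [Field L] [Algebra K L] (x : Fin 3 → L), x ≠ 0 → aeval x F = 0 →
      aeval x G = 0 → ∃ (k : ι) (c : L), x = c • fun b => algebraMap K L (Y k b))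
    (L : Type) [Field L] [Algebra K L] (L' : Type) [Field L'] [Algebra L L'] (x : Fin 3 → L')
    (hx : x ≠ 0) (hF : aeval x (bc L F) = 0) (hG : aeval x (bc L G) = 0) :
    ∃ (k : ι) (c : L'), x = c • fun b => algebraMap L L' (algebraMap K L (Y k b)) := by
  let _ : Algebra K L' := ((algebraMap L L').comp (algebraMap K L)).toAlgebra
  have : IsScalarTower K L L' := IsScalarTower.of_algebraMap_eq fun _ => rfl
  have hae : ∀ P : MvPolynomial (Fin 3) K, aeval x (bc L P) = aeval x P := fun P => by
    rw [bc, aeval_map_algebraMap]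
  rw [hae] at hF hG
  obtain ⟨k, c, h⟩ := h L' x hx hF hG
  exact ⟨k, c, h⟩

/-- if all common zeros are rational they are finite in number -/
theorem finite_common (F G : MvPolynomial (Fin 3) K) {d e : ℕ} (hF : F.IsHomogeneous d)
    (hG : G.IsHomogeneous e)
    (h : ∀ (L : Type) [Field L] [Algebra K L] (x : Fin 3 → L), x ≠ 0 → aeval x F = 0 →
      aeval x G = 0 → ∃ (y : Fin 3 → K) (c : L), x = c • fun b => algebraMap K L (y b)) :
    ∃ T : Finset (Fin 3 → K), (∀ y ∈ T, y ≠ 0 ∧ eval y F = 0 ∧ eval y G = 0) ∧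
      ∀ (L : Type) [Field L] [Algebra K L] (x : Fin 3 → L), x ≠ 0 → aeval x F = 0 →
        aeval x G = 0 → ∃ y ∈ T, ∃ c : L, x = c • fun b => algebraMap K L (y b) := by
  classical
  set I : Ideal (MvPolynomial (Fin 3) K) := Ideal.span {F, G} with hI
  have hfin : I.minimalPrimes.Finite := Ideal.finite_minimalPrimes_of_isNoetherianRing _ I
  have hprime : ∀ p : Ideal (MvPolynomial (Fin 3) K), ∃ y : Fin 3 → K, p ∈ I.minimalPrimes →
      (∀ a, X a ∈ p) ∨ (y ≠ 0 ∧ ∀ a b, X a * C (y b) - X b * C (y a) ∈ p) := by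
    intro p
    by_cases hp : p ∈ I.minimalPrimes
    · have hpp : p.IsPrime := hp.1.1
      have hIp : I ≤ p := hp.1.2
      set L := FractionRing (MvPolynomial (Fin 3) K ⧸ p)
      set φ : MvPolynomial (Fin 3) K →ₐ[K] L :=
        (IsScalarTower.toAlgHom K (MvPolynomial (Fin 3) K ⧸ p) L).comp (Ideal.Quotient.mkₐ K p)
        with hφ
      have hφ0 : ∀ P : MvPolynomial (Fin 3) K, φ P = 0 ↔ P ∈ p := by
        intro P
        rw [hφ]
        simp only [AlgHom.comp_apply, Ideal.Quotient.mkₐ_eq_mk]
        rw [← Ideal.Quotient.eq_zero_iff_mem]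
        constructor
        · intro hh
          exact (IsFractionRing.injective (MvPolynomial (Fin 3) K ⧸ p) L)
            (by simpa using hh)
        · intro hh
          rw [hh, map_zero]
      have hae : ∀ P : MvPolynomial (Fin 3) K, aeval (fun i => φ (X i)) P = φ P := by
        intro P
        have : aeval (fun i => φ (X i)) = φ := by
          apply MvPolynomial.algHom_ext
          intro i
          simp
        rw [this]
      by_cases hz : (fun i => φ (X i)) = 0
      · refine ⟨0, fun _ => Or.inl fun a => ?_⟩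
        exact (hφ0 _).1 (congrFun hz a)
      · obtain ⟨y, c, hyc⟩ := h L (fun i => φ (X i)) hz
          (by rw [hae, hφ0]; exact hIp (Ideal.subset_span (by simp)))
          (by rw [hae, hφ0]; exact hIp (Ideal.subset_span (by simp)))
        refine ⟨y, fun _ => Or.inr ⟨?_, fun a b => ?_⟩⟩
        · rintro rfl
          apply hz
          rw [hyc]
          funext a
          simp
        · rw [← hφ0]
          have ha := congrFun hyc a
          have hb := congrFun hyc b
          simp only [Pi.smul_apply, smul_eq_mul] at ha hb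
          rw [map_sub, map_mul, map_mul, ha, hb]
          have hC : ∀ t : K, φ (C t) = algebraMap K L t := fun t => by
            rw [← MvPolynomial.algebraMap_eq, φ.commutes]
          rw [hC, hC]
          ring
    · exact ⟨0, fun hh => absurd hh hp⟩
  choose y hy using hprime
  have hpar : ∀ (L : Type) [Field L] [Algebra K L] (x : Fin 3 → L) (y : Fin 3 → K), y ≠ 0 →
      (∀ a b, x a * algebraMap K L (y b) = x b * algebraMap K L (y a)) →
      ∃ c : L, x = c • fun b => algebraMap K L (y b) := by
    intro L _ _ x y hy0 hxy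
    obtain ⟨b, hb⟩ := Function.ne_iff.1 hy0
    have hb' : algebraMap K L (y b) ≠ 0 := by
      rw [Ne, map_eq_zero]
      exact hb
    refine ⟨x b / algebraMap K L (y b), ?_⟩
    funext a
    simp only [Pi.smul_apply, smul_eq_mul]
    rw [div_mul_eq_mul_div, eq_div_iff hb']
    exact hxy a b
  refine ⟨(hfin.toFinset.image y).filter fun y => y ≠ 0 ∧ eval y F = 0 ∧ eval y G = 0,
    fun y hy => (Finset.mem_filter.1 hy).2, ?_⟩
  intro L _ _ x hx hFx hGx
  set Q : Ideal (MvPolynomial (Fin 3) K) := RingHom.ker (aeval x : MvPolynomial (Fin 3) K →ₐ[K] L)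
    with hQ
  have hQp : Q.IsPrime := RingHom.ker_isPrime _
  have hIQ : I ≤ Q := by
    rw [hI, Ideal.span_le]
    rintro P (rfl | hP)
    · exact hFx
    · rw [Set.mem_singleton_iff] at hP
      rw [hP]
      exact hGx
  obtain ⟨p, hp, hpQ⟩ := Ideal.exists_minimalPrimes_le hIQ
  rcases hy p hp with hX | ⟨hy0, hyp⟩
  · exfalso
    apply hx
    funext a
    have h1 := hpQ (hX a)
    rw [hQ, RingHom.mem_ker] at h1
    simpa using h1
  · have h2 : ∀ a b, x a * algebraMap K L (y p b) = x b * algebraMap K L (y p a) := by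
      intro a b
      have h1 := hpQ (hyp a b)
      rw [hQ, RingHom.mem_ker] at h1
      simp only [map_sub, map_mul] at h1
      have h3 : ∀ i, (aeval x : MvPolynomial (Fin 3) K →ₐ[K] L) (X i) = x i := fun i => aeval_X _ _
      have h4 : ∀ t, (aeval x : MvPolynomial (Fin 3) K →ₐ[K] L) (C t) = algebraMap K L t :=
        fun t => by rw [aeval_C]
      have h5 := sub_eq_zero.1 h1
      rw [← h3, ← h3, ← h4, ← h4]
      exact h5
    obtain ⟨c, hc⟩ := hpar L x (y p) hy0 h2
    have hc0 : c ≠ 0 := by
      rintro rfl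
      exact hx (by rw [hc, zero_smul])
    have hev : ∀ (Q : MvPolynomial (Fin 3) K) (r : ℕ), Q.IsHomogeneous r →
        aeval x Q = 0 → eval (y p) Q = 0 := by
      intro Q r hQ hQx
      rw [hc, aeval_smul_hom Q hQ, aeval_map_K] at hQx
      have h2 := (mul_eq_zero.1 hQx).resolve_left (pow_ne_zero _ hc0)
      exact (map_eq_zero _).1 h2
    refine ⟨y p, ?_, c, hc⟩
    rw [Finset.mem_filter]
    exact ⟨Finset.mem_image_of_mem _ (hfin.mem_toFinset.2 hp), hy0, hev F d hF hFx,
      hev G e hG hGx⟩

end Pool.Agent.W180.OP
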