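import Pool.Agent.H9.Lib.R_seed8.W180.OP.Ext

set_option autoImplicit false

/-!
Vojta's inequality in the plane at one place, and a weak form of it at several places.
-/

namespace Pool.Agent.W180.OP

open MvPolynomial Finset NumberField IsDedekindDomain Height

/-- the pencil of `F` and `G` contains a product of two linear forms -/
def Split {K : Type} [Field K] (F G : MvPolynomial (Fin 3) K) : Prop :=
  ∃ (a b : K) (M M' : MvPolynomial (Fin 3) K), M.IsHomogeneous 1 ∧ M'.IsHomogeneous 1 ∧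
    M * M' ≠ 0 ∧ C a * F + C b * G = M * M'

theorem one_final {K : Type} [Field K] {q : ℕ}
    (F : Fin q → MvPolynomial (Fin 3) K) (d : Fin q → ℕ) (hF : ∀ i, (F i).IsHomogeneous (d i))
    (hS : SNC F) :
    ∃ Z : Finset (MvPolynomial (Fin 3) K), (∀ M ∈ Z, M.IsHomogeneous 1 ∧ M ≠ 0) ∧
      ∀ (L : Type) [Field L] [NumberField L] [Algebra K L] (p : Pl L), (∀ i, d i ≤ 3) →
        (∀ i j, i ≠ j → 4 ≤ d i + d j → Apart (av p) (d i) (d j) (bc L (F i)) (bc L (F j)) ∨
          (d i = 2 ∧ d j = 2 ∧ Split (F i) (F j))) →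
        ∃ B : ℝ, ∀ x : Fin 3 → L, x ≠ 0 → (∀ i, aeval x (F i) ≠ 0) →
          (∀ M ∈ Z, aeval x M ≠ 0) →
          wt p * ∑ i, lam (av p) (d i) (bc L (F i)) x ≤ 3 * logHeight x + B := by
  classical
  have hM : ∀ i j : Fin q, ∃ M : Fin 2 → MvPolynomial (Fin 3) K, (∀ k, (M k).IsHomogeneous 1) ∧
      (Split (F i) (F j) → M 0 * M 1 ≠ 0 ∧ ∃ a b : K, C a * F i + C b * F j = M 0 * M 1) := by
    intro i j
    by_cases h : Split (F i) (F j)
    · obtain ⟨a, b, M, M', h1, h2, h3, h4⟩ := h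
      refine ⟨![M, M'], fun k => ?_, fun _ => ⟨h3, a, b, h4⟩⟩
      fin_cases k
      · exact h1
      · exact h2
    · exact ⟨fun _ => 0, fun _ => isHomogeneous_zero _ _ _, fun h' => absurd h' h⟩
  choose M hM1 hM2 using hM
  refine ⟨(Finset.univ.image fun t : Fin q × Fin q × Fin 2 => M t.1 t.2.1 t.2.2).filter
    fun N => N ≠ 0, fun N hN => ?_, ?_⟩
  · rw [Finset.mem_filter, Finset.mem_image] at hN
    obtain ⟨⟨t, -, rfl⟩, h0⟩ := hN
    exact ⟨hM1 _ _ _, h0⟩
  · intro L _ _ _ p hd hpair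
    obtain ⟨B, -, hB⟩ := one_place (fun i => bc L (F i)) d (fun i => bc_hom (hF i)) hd
      (hS.bc L) (av p) (wt p) (wt_nonneg p) logHeight (fun x => logHeight_nonneg x) (by
        intro G e hG
        obtain ⟨C, hC0, hC⟩ := liou G e hG
        refine ⟨C, hC0, fun x hx hGx => ?_⟩
        have := hC {p} x hx hGx
        rwa [Finset.sum_singleton] at this)
      (fun i j k => bc L (M i j k)) (fun i j k => bc_hom (hM1 i j k)) (by
        intro i j hij h4
        rcases hpair i j hij h4 with h | ⟨h1, h2, h3⟩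
        · exact Or.inl h
        · right
          obtain ⟨h5, a, b, h6⟩ := hM2 i j h3
          refine ⟨h1, h2, mul_ne_zero (bc_ne (left_ne_zero_of_mul h5))
            (bc_ne (right_ne_zero_of_mul h5)), algebraMap K L a, algebraMap K L b, ?_⟩
          have h7 := congrArg (bc L) h6
          simpa [bc] using h7)
    refine ⟨B, fun x hx hFx hZ => hB x hx (fun i => by rw [eval_bc]; exact hFx i) ?_⟩
    intro i j _ k hk
    rw [eval_bc]
    apply hZ
    rw [Finset.mem_filter]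
    refine ⟨Finset.mem_image.2 ⟨(i, j, k), Finset.mem_univ _, rfl⟩, ?_⟩
    intro h0
    apply hk
    show bc L (M i j k) = 0
    rw [h0]
    simp [bc]

/-- all crossing points are rational -/
def RatCross {K : Type} [Field K] {q : ℕ} (F : Fin q → MvPolynomial (Fin 3) K) : Prop :=
  ∀ i j, i ≠ j → ∀ (L : Type) [Field L] [Algebra K L] (x : Fin 3 → L), x ≠ 0 →
    aeval x (F i) = 0 → aeval x (F j) = 0 → ∃ (y : Fin 3 → K) (c : L),
      x = c • fun b => algebraMap K L (y b)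

theorem exists_Y {K : Type} [Field K] {q : ℕ}
    (F : Fin q → MvPolynomial (Fin 3) K) (d : Fin q → ℕ) (hF : ∀ i, (F i).IsHomogeneous (d i))
    (hR : RatCross F) :
    ∃ T : Finset (Fin 3 → K), (∀ y ∈ T, y ≠ 0 ∧ ∃ i j, i ≠ j ∧ eval y (F i) = 0 ∧
      eval y (F j) = 0) ∧ ∀ i j, i ≠ j → ∀ (L : Type) [Field L] [Algebra K L] (x : Fin 3 → L),
      x ≠ 0 → aeval x (F i) = 0 → aeval x (F j) = 0 → ∃ y ∈ T, ∃ c : L,
        x = c • fun b => algebraMap K L (y b) := by
  classical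
  have h : ∀ i j : Fin q, ∃ T : Finset (Fin 3 → K), i ≠ j →
      (∀ y ∈ T, y ≠ 0 ∧ eval y (F i) = 0 ∧ eval y (F j) = 0) ∧
      ∀ (L : Type) [Field L] [Algebra K L] (x : Fin 3 → L), x ≠ 0 → aeval x (F i) = 0 →
        aeval x (F j) = 0 → ∃ y ∈ T, ∃ c : L, x = c • fun b => algebraMap K L (y b) := by
    intro i j
    by_cases hij : i = j
    · exact ⟨∅, fun h => absurd hij h⟩
    · obtain ⟨T, h1, h2⟩ := finite_common (F i) (F j) (hF i) (hF j)
        (fun L _ _ x hx h1 h2 => hR i j hij L x hx h1 h2)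
      exact ⟨T, fun _ => ⟨h1, h2⟩⟩
  choose T hT using h
  refine ⟨Finset.univ.biUnion fun t : Fin q × Fin q => if t.1 = t.2 then ∅ else T t.1 t.2,
    fun y hy => ?_, fun i j hij L _ _ x hx h1 h2 => ?_⟩
  · obtain ⟨t, -, ht⟩ := Finset.mem_biUnion.1 hy
    by_cases h : t.1 = t.2
    · rw [if_pos h] at ht
      exact absurd ht (Finset.notMem_empty _)
    · rw [if_neg h] at ht
      obtain ⟨g1, g2, g3⟩ := (hT t.1 t.2 h).1 y ht
      exact ⟨g1, t.1, t.2, h, g2, g3⟩
  · obtain ⟨y, hy, c, hc⟩ := (hT i j hij).2 L x hx h1 h2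
    refine ⟨y, Finset.mem_biUnion.2 ⟨(i, j), Finset.mem_univ _, ?_⟩, c, hc⟩
    show y ∈ if i = j then ∅ else T i j
    rw [if_neg hij]
    exact hy

/-- two lines through one point -/
lemma two_lines {K : Type} [Field K] (y : Fin 3 → K) (hy : y ≠ 0) :
    ∃ N : Fin 3 → MvPolynomial (Fin 3) K, (∀ m, (N m).IsHomogeneous 1) ∧ (∀ m, eval y (N m) = 0) ∧
      ∀ (L : Type) [Field L] [Algebra K L] (x : Fin 3 → L), (∀ m, aeval x (N m) = 0) →
        ∃ c : L, x = c • fun b => algebraMap K L (y b) := by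
  classical
  obtain ⟨b, hb⟩ := Function.ne_iff.1 hy
  refine ⟨fun m => X m * C (y b) - X b * C (y m), fun m => ?_, fun m => ?_, ?_⟩
  · refine IsHomogeneous.sub ?_ ?_
    · simpa using (isHomogeneous_X K m).mul (isHomogeneous_C (Fin 3) (y b))
    · simpa using (isHomogeneous_X K b).mul (isHomogeneous_C (Fin 3) (y m))
  · simp
    ring
  · intro L _ _ x hx
    have hb' : algebraMap K L (y b) ≠ 0 := by
      rw [Ne, map_eq_zero]
      exact hb
    refine ⟨x b / algebraMap K L (y b), ?_⟩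
    funext a
    have h1 := hx a
    simp only [map_sub, map_mul, aeval_X, aeval_C] at h1
    simp only [Pi.smul_apply, smul_eq_mul]
    rw [div_mul_eq_mul_div, eq_div_iff hb']
    exact sub_eq_zero.1 h1

/-- the lines through two different crossing points suffice -/
theorem many_final {K : Type} [Field K] {q : ℕ} (hq : 0 < q)
    (F : Fin q → MvPolynomial (Fin 3) K) (d : Fin q → ℕ) (hd : ∀ i, 1 ≤ d i)
    (hF : ∀ i, (F i).IsHomogeneous (d i)) (hS : SNC F) (hR : RatCross F) :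
    ∃ Z : Finset (MvPolynomial (Fin 3) K), (∀ M ∈ Z, M.IsHomogeneous 1 ∧ M ≠ 0 ∧
      ∃ y y' : Fin 3 → K, LinearIndependent K ![y, y'] ∧ eval y M = 0 ∧ eval y' M = 0 ∧
        (∃ i j, i ≠ j ∧ eval y (F i) = 0 ∧ eval y (F j) = 0) ∧
        (∃ i j, i ≠ j ∧ eval y' (F i) = 0 ∧ eval y' (F j) = 0)) ∧
      ∀ (L : Type) [Field L] [NumberField L] [Algebra K L] (S : Finset (Pl L)),
        ∃ B : ℝ, 0 ≤ B ∧ ∀ x : Fin 3 → L, x ≠ 0 → (∀ i, aeval x (F i) ≠ 0) →
          (∀ M ∈ Z, aeval x M ≠ 0) →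
          ∃ (i0 : Pl L → Fin q) (t : Pl L → ℝ),
            (∀ p, 0 ≤ t p) ∧
            (∀ p ∈ S, ∀ j, j ≠ i0 p → lam (av p) (d j) (bc L (F j)) x ≤ t p) ∧
            (∀ p ∈ S, wt p * ∑ i, lam (av p) (d i) (bc L (F i)) x ≤
              wt p * max 0 (lam (av p) (d (i0 p)) (bc L (F (i0 p))) x) + wt p * t p + B) ∧
            ∑ p ∈ S, wt p * t p ≤ max 1 ((S.card : ℝ) / 2) * logHeight x + B := by
  classical
  obtain ⟨T, hT1, hT2⟩ := exists_Y F d hF hR
  choose M0 hM01 hM02 hM03 hM04 using fun (y y' : Fin 3 → K) => exists_line y y'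
  choose! N hN1 hN2 hN3 using fun (y : Fin 3 → K) (hy : y ≠ 0) => two_lines y hy
  refine ⟨((T ×ˢ T).filter fun t => LinearIndependent K ![t.1, t.2]).image
    fun t => M0 t.1 t.2, fun M hM => ?_, ?_⟩
  · obtain ⟨t, ht, rfl⟩ := Finset.mem_image.1 hM
    rw [Finset.mem_filter, Finset.mem_product] at ht
    exact ⟨hM01 _ _, hM02 _ _, t.1, t.2, ht.2, hM03 _ _, hM04 _ _, (hT1 _ ht.1.1).2,
      (hT1 _ ht.1.2).2⟩
  · intro L _ _ _ S
    obtain ⟨B, hB0, hB⟩ := global hq (fun i => bc L (F i)) d hd (fun i => bc_hom (hF i))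
      (hS.bc L) (fun (k : T) b => algebraMap K L (k.1 b)) (by
        intro k h
        apply (hT1 k.1 k.2).1
        funext b
        have := congrFun h b
        simpa using this) (by
        intro i j hij L' _ _ x hx h1 h2
        exact common_bc (fun k : T => k.1) (by
          intro L _ _ x hx h1 h2
          obtain ⟨y, hy, c, hc⟩ := hT2 i j hij L x hx h1 h2
          exact ⟨⟨y, hy⟩, c, hc⟩) L L' x hx h1 h2)
      (κ := (T × T) ⊕ (T × Fin 3))
      (Sum.elim (fun t => bc L (M0 t.1.1 t.2.1)) (fun t => bc L (N t.1.1 t.2))) (by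
        rintro (t | t)
        · exact bc_hom (hM01 _ _)
        · exact bc_hom (hN1 _ (hT1 _ t.1.2).1 _)) S
    refine ⟨B, hB0, fun x hx hFx hZ => hB x hx (fun i => by rw [eval_bc]; exact hFx i) ?_⟩
    have hevK : ∀ (Q : MvPolynomial (Fin 3) K) (y : Fin 3 → K), eval y Q = 0 →
        eval (fun b => algebraMap K L (y b)) (bc L Q) = 0 := by
      intro Q y h
      rw [eval_bc, aeval_map_K, h, map_zero]
    intro k l
    by_cases hli : LinearIndependent K ![k.1, l.1]
    · refine ⟨Sum.inl (k, l), hevK _ _ (hM03 _ _), hevK _ _ (hM04 _ _), ?_⟩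
      show eval x (bc L (M0 k.1 l.1)) ≠ 0
      rw [eval_bc]
      apply hZ
      refine Finset.mem_image.2 ⟨(k.1, l.1), ?_, rfl⟩
      rw [Finset.mem_filter, Finset.mem_product]
      exact ⟨⟨k.2, l.2⟩, hli⟩
    · -- the same point
      have hk0 := (hT1 k.1 k.2).1
      obtain ⟨c, hc⟩ : ∃ c : K, l.1 = c • k.1 := by
        rw [LinearIndependent.pair_iff' hk0] at hli
        push Not at hli
        obtain ⟨c, hc⟩ := hli
        exact ⟨c, hc.symm⟩
      obtain ⟨m, hm⟩ : ∃ m, aeval x (N k.1 m) ≠ 0 := by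
        by_contra hcon
        push Not at hcon
        obtain ⟨c, hc⟩ := hN3 k.1 hk0 L x hcon
        obtain ⟨-, i, j, -, hi, -⟩ := hT1 k.1 k.2
        apply hFx i
        rw [hc, aeval_smul_hom _ (hF i), aeval_map_K, hi, map_zero, mul_zero]
      refine ⟨Sum.inr (k, m), hevK _ _ (hN2 _ hk0 m), ?_, ?_⟩
      · refine hevK _ _ ?_
        rw [hc, eval_smul_hom _ (hN1 _ hk0 m), hN2 _ hk0 m, mul_zero]
      · show eval x (bc L (N k.1 m)) ≠ 0
        rw [eval_bc]
        exact hm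

end Pool.Agent.W180.OP
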