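import Mathlib

set_option autoImplicit false

/-!
Forms in three variables over a field with an absolute value: local estimates.
-/

namespace Pool.Agent.W180.OP

open MvPolynomial Finset

section alg

variable {R : Type*} [CommRing R] {σ : Type*}

theorem homComp_mul (p F : MvPolynomial σ R) (a m : ℕ) (hF : F.IsHomogeneous m) :
    homogeneousComponent (a + m) (p * F) = homogeneousComponent a p * F := by
  conv_lhs => rw [← sum_homogeneousComponent p]
  rw [Finset.sum_mul, map_sum]
  have h : ∀ i, homogeneousComponent (a + m) (homogeneousComponent i p * F) =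
      if a = i then homogeneousComponent i p * F else 0 := by
    intro i
    have h1 : (homogeneousComponent i p * F).IsHomogeneous (i + m) :=
      (homogeneousComponent_isHomogeneous i p).mul hF
    rw [homogeneousComponent_of_mem h1]
    by_cases hi : a = i
    · simp [hi]
    · rw [if_neg hi, if_neg (by omega)]
  simp only [h]
  rw [Finset.sum_ite_eq]
  split_ifs with ha
  · rfl
  · rw [homogeneousComponent_eq_zero, zero_mul]
    rw [Finset.mem_range] at ha
    omega

end alg

variable {K : Type} [Field K]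

/-- weak Nullstellensatz: if the polynomials `G i` have no common zero with `x a ≠ 0` over
extensions of `K`, then a power of `X a` is a combination of the `G i` -/
theorem null {ι : Type} [Fintype ι] {n : ℕ} (G : ι → MvPolynomial (Fin n) K) (a : Fin n)
    (h : ∀ (L : Type) [Field L] [Algebra K L] (x : Fin n → L), (∀ i, aeval x (G i) = 0) →
      x a = 0) :
    ∃ (N : ℕ) (A : ι → MvPolynomial (Fin n) K), (X a : MvPolynomial (Fin n) K) ^ N =
      ∑ i, A i * G i := by
  classical
  have h1 : (X a : MvPolynomial (Fin n) K) ∈ (Ideal.span (Set.range G)).radical := by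
    rw [Ideal.radical_eq_sInf, Ideal.mem_sInf]
    rintro p ⟨hp, hprime⟩
    have := hprime
    set L := FractionRing (MvPolynomial (Fin n) K ⧸ p)
    set φ : MvPolynomial (Fin n) K →ₐ[K] L :=
      (IsScalarTower.toAlgHom K (MvPolynomial (Fin n) K ⧸ p) L).comp (Ideal.Quotient.mkₐ K p)
      with hφ
    have hφ0 : ∀ P : MvPolynomial (Fin n) K, φ P = 0 ↔ P ∈ p := by
      intro P
      rw [hφ]
      simp only [AlgHom.comp_apply, Ideal.Quotient.mkₐ_eq_mk]
      rw [← Ideal.Quotient.eq_zero_iff_mem]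
      constructor
      · intro hh
        exact (IsFractionRing.injective (MvPolynomial (Fin n) K ⧸ p) L)
          (by simpa using hh)
      · intro hh
        rw [hh, map_zero]
    have hae : ∀ P : MvPolynomial (Fin n) K, aeval (fun i => φ (X i)) P = φ P := by
      intro P
      have : aeval (fun i => φ (X i)) = φ := by
        apply MvPolynomial.algHom_ext
        intro i
        simp
      rw [this]
    have h2 := h L (fun i => φ (X i)) (fun i => by
      rw [hae, hφ0]
      exact hp (Ideal.subset_span (Set.mem_range_self i)))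
    exact (hφ0 _).1 h2
  obtain ⟨N, hN⟩ := h1
  obtain ⟨A, hA⟩ := (Ideal.mem_span_range_iff_exists_fun).1 hN
  exact ⟨N, A, hA.symm⟩

/-- homogeneous version -/
theorem null_hom {ι : Type} [Fintype ι] {n : ℕ} (G : ι → MvPolynomial (Fin n) K) (e : ι → ℕ)
    (hG : ∀ i, (G i).IsHomogeneous (e i))
    (h : ∀ (L : Type) [Field L] [Algebra K L] (x : Fin n → L), (∀ i, aeval x (G i) = 0) →
      x = 0) :
    ∃ (N : ℕ), (∀ i, e i ≤ N) ∧ ∀ a : Fin n, ∃ A : ι → MvPolynomial (Fin n) K,
      (∀ i, (A i).IsHomogeneous (N - e i)) ∧ (X a : MvPolynomial (Fin n) K) ^ N =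
        ∑ i, A i * G i := by
  classical
  have h1 : ∀ a : Fin n, ∃ (N : ℕ) (A : ι → MvPolynomial (Fin n) K),
      (X a : MvPolynomial (Fin n) K) ^ N = ∑ i, A i * G i := fun a =>
    null G a fun L _ _ x hx => by rw [h L x hx]; rfl
  choose N A hA using h1
  refine ⟨∑ a, N a + ∑ i, e i, fun i => ?_, fun a => ?_⟩
  · have := Finset.single_le_sum (f := e) (fun _ _ => Nat.zero_le _) (Finset.mem_univ i)
    omega
  · set M : ℕ := ∑ a, N a + ∑ i, e i with hM
    have hNa : N a ≤ M := by
      have := Finset.single_le_sum (f := N) (fun _ _ => Nat.zero_le _) (Finset.mem_univ a)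
      omega
    have he : ∀ i, e i ≤ M := fun i => by
      have := Finset.single_le_sum (f := e) (fun _ _ => Nat.zero_le _) (Finset.mem_univ i)
      omega
    refine ⟨fun i => homogeneousComponent (M - e i) (X a ^ (M - N a) * A a i), fun i =>
      homogeneousComponent_isHomogeneous _ _, ?_⟩
    have h2 : (X a : MvPolynomial (Fin n) K) ^ M = ∑ i, (X a ^ (M - N a) * A a i) * G i := by
      have : (X a : MvPolynomial (Fin n) K) ^ M = X a ^ (M - N a) * X a ^ (N a) := by
        rw [← pow_add]; congr 1; omega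
      rw [this, hA a, Finset.mul_sum]
      exact Finset.sum_congr rfl fun i _ => by ring
    have h3 : homogeneousComponent M ((X a : MvPolynomial (Fin n) K) ^ M) = X a ^ M :=
      homogeneousComponent_eq_self (by
        have := (isHomogeneous_X K a).pow M
        simpa using this)
    rw [← h3, h2, map_sum]
    refine Finset.sum_congr rfl fun i _ => ?_
    have h4 : (M - e i) + e i = M := by have := he i; omega
    have h5 := homComp_mul (X a ^ (M - N a) * A a i) (G i) (M - e i) (e i) (hG i)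
    rw [h4] at h5
    exact h5

/-- the supremum norm -/
noncomputable def nrm (f : AbsoluteValue K ℝ) {n : ℕ} (x : Fin n → K) : ℝ := ⨆ j, f (x j)

lemma le_nrm (f : AbsoluteValue K ℝ) {n : ℕ} (x : Fin n → K) (j : Fin n) : f (x j) ≤ nrm f x :=
  le_ciSup (f := fun j => f (x j)) (Set.finite_range _).bddAbove j

lemma nrm_nonneg (f : AbsoluteValue K ℝ) {n : ℕ} (x : Fin n → K) : 0 ≤ nrm f x :=
  Real.iSup_nonneg fun _ => f.nonneg _

lemma nrm_pos (f : AbsoluteValue K ℝ) {n : ℕ} {x : Fin n → K} (hx : x ≠ 0) : 0 < nrm f x := by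
  obtain ⟨j, hj⟩ := Function.ne_iff.1 hx
  exact (f.pos_iff.2 hj).trans_le (le_nrm f x j)

lemma exists_nrm (f : AbsoluteValue K ℝ) {n : ℕ} (hn : 0 < n) (x : Fin n → K) :
    ∃ j, f (x j) = nrm f x := by
  have : Nonempty (Fin n) := ⟨⟨0, hn⟩⟩
  obtain ⟨j, hj⟩ := exists_eq_ciSup_of_finite (f := fun j => f (x j))
  exact ⟨j, hj⟩

/-- the sum of the absolute values of the coefficients -/
noncomputable def cs (f : AbsoluteValue K ℝ) {n : ℕ} (F : MvPolynomial (Fin n) K) : ℝ :=
  ∑ m ∈ F.support, f (F.coeff m)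

lemma cs_nonneg (f : AbsoluteValue K ℝ) {n : ℕ} (F : MvPolynomial (Fin n) K) : 0 ≤ cs f F :=
  Finset.sum_nonneg fun _ _ => f.nonneg _

lemma abv_mv (f : AbsoluteValue K ℝ) {n : ℕ} (F : MvPolynomial (Fin n) K) {d : ℕ}
    (hF : F.IsHomogeneous d) (x : Fin n → K) :
    f (MvPolynomial.eval x F) ≤ cs f F * nrm f x ^ d := by
  rw [MvPolynomial.eval_eq, cs, Finset.sum_mul]
  refine (f.sum_le _ _).trans (Finset.sum_le_sum fun m hm => ?_)
  rw [map_mul]
  refine mul_le_mul_of_nonneg_left ?_ (f.nonneg _)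
  rw [map_prod]
  have h1 : m.degree = d := by
    have := hF (MvPolynomial.mem_support_iff.1 hm)
    exact (DFunLike.congr_fun (Finsupp.degree_eq_weight_one (σ := Fin n) (R := ℕ)) m).trans this
  have h2 : ∑ i ∈ m.support, m i = d := by rw [← h1]; rfl
  rw [← h2, ← Finset.prod_pow_eq_pow_sum]
  refine Finset.prod_le_prod (fun i _ => f.nonneg _) fun i _ => ?_
  rw [map_pow]
  exact pow_le_pow_left₀ (f.nonneg _) (le_nrm f x i) _

/-- forms without common zero are not all small -/
theorem not_small {ι : Type} [Fintype ι] {n : ℕ} (hn : 0 < n) (G : ι → MvPolynomial (Fin n) K)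
    (e : ι → ℕ) (hG : ∀ i, (G i).IsHomogeneous (e i))
    (h : ∀ (L : Type) [Field L] [Algebra K L] (x : Fin n → L), (∀ i, aeval x (G i) = 0) →
      x = 0) (f : AbsoluteValue K ℝ) :
    ∃ c : ℝ, 0 < c ∧ ∀ x : Fin n → K, x ≠ 0 → ∃ i, c * nrm f x ^ e i ≤ f (eval x (G i)) := by
  classical
  obtain ⟨N, hN, hA⟩ := null_hom G e hG h
  choose A hA1 hA2 using hA
  set B : ℝ := 1 + ∑ a, ∑ i, cs f (A a i) with hB
  have hB0 : 0 < B := by
    have : 0 ≤ ∑ a, ∑ i, cs f (A a i) :=
      Finset.sum_nonneg fun _ _ => Finset.sum_nonneg fun _ _ => cs_nonneg _ _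
    linarith
  refine ⟨B⁻¹, inv_pos.2 hB0, fun x hx => ?_⟩
  by_contra hcon
  push Not at hcon
  obtain ⟨a, ha⟩ := exists_nrm f hn x
  have hpos := nrm_pos f hx
  have h1 : eval x ((X a : MvPolynomial (Fin n) K) ^ N) = ∑ i, eval x (A a i) * eval x (G i) := by
    rw [hA2 a, map_sum]
    simp only [map_mul]
  have h2 : nrm f x ^ N = f (∑ i, eval x (A a i) * eval x (G i)) := by
    rw [← h1, map_pow, eval_X, map_pow, ha]
  have h3 : nrm f x ^ N ≤ ∑ i, f (eval x (A a i)) * f (eval x (G i)) := by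
    rw [h2]
    refine (f.sum_le _ _).trans (le_of_eq ?_)
    exact Finset.sum_congr rfl fun i _ => map_mul _ _ _
  have h4 : ∀ i, f (eval x (A a i)) * f (eval x (G i)) ≤
      cs f (A a i) * (B⁻¹ * nrm f x ^ N) := by
    intro i
    calc f (eval x (A a i)) * f (eval x (G i)) ≤
        (cs f (A a i) * nrm f x ^ (N - e i)) * (B⁻¹ * nrm f x ^ e i) :=
          mul_le_mul (abv_mv f _ (hA1 a i) x) (hcon i).le (f.nonneg _)
            (mul_nonneg (cs_nonneg _ _) (pow_nonneg hpos.le _))
      _ = cs f (A a i) * (B⁻¹ * (nrm f x ^ (N - e i) * nrm f x ^ e i)) := by ring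
      _ = _ := by rw [← pow_add, Nat.sub_add_cancel (hN i)]
  have h5 : nrm f x ^ N ≤ (∑ i, cs f (A a i)) * (B⁻¹ * nrm f x ^ N) := by
    rw [Finset.sum_mul]
    exact h3.trans (Finset.sum_le_sum fun i _ => h4 i)
  have h6 : ∑ i, cs f (A a i) < B := by
    have := Finset.single_le_sum (f := fun a => ∑ i, cs f (A a i))
      (fun _ _ => Finset.sum_nonneg fun _ _ => cs_nonneg _ _) (Finset.mem_univ a)
    have h7 : ∑ i, cs f (A a i) ≤ ∑ a, ∑ i, cs f (A a i) := this
    linarith
  have h7 : (∑ i, cs f (A a i)) * (B⁻¹ * nrm f x ^ N) < B * (B⁻¹ * nrm f x ^ N) :=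
    mul_lt_mul_of_pos_right h6 (by positivity)
  have h8 : B * (B⁻¹ * nrm f x ^ N) = nrm f x ^ N := by
    rw [← mul_assoc, mul_inv_cancel₀ hB0.ne', one_mul]
  linarith

/-- the local height of the curve `F = 0` of degree `d` -/
noncomputable def lam (f : AbsoluteValue K ℝ) {n : ℕ} (d : ℕ) (F : MvPolynomial (Fin n) K)
    (x : Fin n → K) : ℝ := Real.log (nrm f x ^ d / f (eval x F))

lemma lam_eq (f : AbsoluteValue K ℝ) {n : ℕ} (d : ℕ) (F : MvPolynomial (Fin n) K)
    {x : Fin n → K} (hx : x ≠ 0) (hF : eval x F ≠ 0) :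
    lam f d F x = d * Real.log (nrm f x) - Real.log (f (eval x F)) := by
  unfold lam
  rw [Real.log_div (pow_pos (nrm_pos f hx) _).ne' (f.pos_iff.2 hF).ne', Real.log_pow]

/-- local heights of forms without common zeros: the smallest is bounded -/
theorem min_lam {ι : Type} [Fintype ι] {n : ℕ} (hn : 0 < n) (G : ι → MvPolynomial (Fin n) K)
    (e : ι → ℕ) (hG : ∀ i, (G i).IsHomogeneous (e i))
    (h : ∀ (L : Type) [Field L] [Algebra K L] (x : Fin n → L), (∀ i, aeval x (G i) = 0) →
      x = 0) (f : AbsoluteValue K ℝ) :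
    ∃ C : ℝ, ∀ x : Fin n → K, x ≠ 0 → (∀ i, eval x (G i) ≠ 0) → ∃ i, lam f (e i) (G i) x ≤ C := by
  obtain ⟨c, hc, hcx⟩ := not_small hn G e hG h f
  refine ⟨-Real.log c, fun x hx hGx => ?_⟩
  obtain ⟨i, hi⟩ := hcx x hx
  refine ⟨i, ?_⟩
  have h0 := nrm_pos f hx
  have h1 := f.pos_iff.2 (hGx i)
  have h2 : Real.log c + e i * Real.log (nrm f x) ≤ Real.log (f (eval x (G i))) := by
    rw [← Real.log_pow, ← Real.log_mul hc.ne' (pow_pos h0 _).ne']
    exact Real.log_le_log (by positivity) hi
  rw [lam_eq f _ _ hx (hGx i)]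
  linarith

end Pool.Agent.W180.OP
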