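import Pool.Agent.H9.Lib.R_seed8.W180.OP.Point

set_option autoImplicit false

/-!
Points close to two curves are close to a crossing point.
-/

namespace Pool.Agent.W180.OP

open MvPolynomial Finset

variable {K : Type} [Field K]

theorem nullW {ι : Type} [Fintype ι] {n : ℕ} (G : ι → MvPolynomial (Fin n) K)
    (W : MvPolynomial (Fin n) K)
    (h : ∀ (L : Type) [Field L] [Algebra K L] (x : Fin n → L), (∀ i, aeval x (G i) = 0) →
      aeval x W = 0) :
    ∃ (N : ℕ) (A : ι → MvPolynomial (Fin n) K), W ^ N = ∑ i, A i * G i := by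
  classical
  have h1 : W ∈ (Ideal.span (Set.range G)).radical := by
    rw [Ideal.radical_eq_sInf, Ideal.mem_sInf]
    rintro p ⟨hp, hprime⟩
    have := hprime
    set L := FractionRing (MvPolynomial (Fin n) K ⧸ p)
    set φ : MvPolynomial (Fin n) K →ₐ[K] L :=
      (IsScalarTower.toAlgHom K (MvPolynomial (Fin n) K ⧸ p) L).comp (Ideal.Quotient.mkₐ K p)
      with hφ
    have hφ0 : ∀ P : MvPolynomial (Fin n) K, φ P = 0 ↔ P ∈ p := by
      intro P
      rw [hφ]
      simp only [AlgHom.comp_apply, Ideal.Quotient.mkₐ_eq_mk]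
      rw [← Ideal.Quotient.eq_zero_iff_mem]
      constructor
      · intro hh
        exact (IsFractionRing.injective (MvPolynomial (Fin n) K ⧸ p) L)
          (by simpa using hh)
      · intro hh
        rw [hh, map_zero]
    have hae : ∀ P : MvPolynomial (Fin n) K, aeval (fun i => φ (X i)) P = φ P := by
      intro P
      have : aeval (fun i => φ (X i)) = φ := by
        apply MvPolynomial.algHom_ext
        intro i
        simp
      rw [this]
    have h2 := h L (fun i => φ (X i)) (fun i => by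
      rw [hae, hφ0]
      exact hp (Ideal.subset_span (Set.mem_range_self i)))
    rw [hae] at h2
    exact (hφ0 _).1 h2
  obtain ⟨N, hN⟩ := h1
  obtain ⟨A, hA⟩ := (Ideal.mem_span_range_iff_exists_fun).1 hN
  exact ⟨N, A, hA.symm⟩

lemma aeval_map_K {L : Type} [Field L] [Algebra K L] (y : Fin 3 → K)
    (Q : MvPolynomial (Fin 3) K) :
    aeval (fun b => algebraMap K L (y b)) Q = algebraMap K L (eval y Q) := by
  have h := MvPolynomial.aeval_algebraMap_apply L y Q
  rw [aeval_eq_eval] at h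
  exact h

lemma aeval_smul_hom {L : Type} [Field L] [Algebra K L] {d : ℕ} (Q : MvPolynomial (Fin 3) K)
    (hQ : Q.IsHomogeneous d) (c : L) (x : Fin 3 → L) : aeval (c • x) Q = c ^ d * aeval x Q := by
  have h1 : ∀ z : Fin 3 → L, aeval z Q = eval z (map (algebraMap K L) Q) := fun z => by
    rw [eval_map, aeval_def]
  rw [h1, h1, eval_smul_hom _ (hQ.map _)]

/-- points close to two curves are close to a crossing point -/
theorem cover (f : AbsoluteValue K ℝ) {F G : MvPolynomial (Fin 3) K} {d e : ℕ}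
    (hF : F.IsHomogeneous d) (hG : G.IsHomogeneous e) (P : Finset (Fin 3 → K))
    (hcommon : ∀ (L : Type) [Field L] [Algebra K L] (x : Fin 3 → L), x ≠ 0 → aeval x F = 0 →
      aeval x G = 0 → ∃ y ∈ P, ∃ c : L, x = c • fun b => algebraMap K L (y b))
    (δ : ℝ) (hδ : 0 < δ) :
    ∃ ε : ℝ, 0 < ε ∧ ∀ x : Fin 3 → K, nrm f x = 1 → max (f (eval x F)) (f (eval x G)) < ε →
      ∃ y ∈ P, eval y F = 0 ∧ eval y G = 0 ∧ ∀ a b, f (x a * y b - x b * y a) ≤ δ := by
  classical
  set P' : Finset (Fin 3 → K) := P.filter fun y => eval y F = 0 ∧ eval y G = 0 with hP'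
  set W : (P' → Fin 3 × Fin 3) × Fin 3 → MvPolynomial (Fin 3) K := fun s =>
    (∏ y : P', (X (s.1 y).1 * C (y.1 (s.1 y).2) - X (s.1 y).2 * C (y.1 (s.1 y).1))) * X s.2 with hW
  have hWx : ∀ s (x : Fin 3 → K), eval x (W s) =
      (∏ y : P', (x (s.1 y).1 * y.1 (s.1 y).2 - x (s.1 y).2 * y.1 (s.1 y).1)) * x s.2 := by
    intro s x
    simp [hW, map_prod]
  have hnull : ∀ s, ∃ ε : ℝ, 0 < ε ∧ ∀ x : Fin 3 → K, nrm f x = 1 →
      δ ^ P'.card ≤ f (eval x (W s)) → ε ≤ max (f (eval x F)) (f (eval x G)) := by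
    intro s
    obtain ⟨N, A, hA⟩ := nullW (![F, G] : Fin 2 → MvPolynomial (Fin 3) K) (W s) (by
      intro L _ _ x hx
      have hx0 : aeval x F = 0 := hx 0
      have hx1 : aeval x G = 0 := hx 1
      by_cases hx00 : x = 0
      · rw [hW]
        simp only [map_mul, aeval_X]
        rw [hx00, Pi.zero_apply, mul_zero]
      · obtain ⟨y, hy, c, hc⟩ := hcommon L x hx00 hx0 hx1
        have hc0 : c ≠ 0 := by
          rintro rfl
          exact hx00 (by rw [hc, zero_smul])
        have hev : ∀ (Q : MvPolynomial (Fin 3) K) (r : ℕ), Q.IsHomogeneous r →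
            aeval x Q = 0 → eval y Q = 0 := by
          intro Q r hQ hQx
          rw [hc, aeval_smul_hom Q hQ, aeval_map_K] at hQx
          have h2 := (mul_eq_zero.1 hQx).resolve_left (pow_ne_zero _ hc0)
          exact (map_eq_zero _).1 h2
        have hyP : y ∈ P' := by
          rw [hP', Finset.mem_filter]
          exact ⟨hy, hev F d hF hx0, hev G e hG hx1⟩
        rw [hW]
        simp only [map_mul, map_prod]
        rw [Finset.prod_eq_zero (Finset.mem_univ ⟨y, hyP⟩), zero_mul]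
        rw [hc]
        simp only [map_sub, map_mul, aeval_X, aeval_C, Pi.smul_apply, smul_eq_mul]
        ring)
    obtain ⟨B1, hB10, hB1⟩ := bounded f (A 0) 1 zero_le_one
    obtain ⟨B2, hB20, hB2⟩ := bounded f (A 1) 1 zero_le_one
    set B : ℝ := B1 + B2 + 1 with hB
    have hB0 : 0 < B := by positivity
    refine ⟨(δ ^ P'.card) ^ N / B, by positivity, fun x hx hWδ => ?_⟩
    set μ := max (f (eval x F)) (f (eval x G)) with hμ
    have hμ0 : 0 ≤ μ := (f.nonneg _).trans (le_max_left _ _)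
    have e1 : eval x (W s) ^ N = eval x (A 0) * eval x F + eval x (A 1) * eval x G := by
      rw [← map_pow, hA, Fin.sum_univ_two]
      simp
    have e2 : f (eval x (W s)) ^ N ≤ B * μ := by
      rw [← map_pow, e1]
      refine (f.add_le _ _).trans ?_
      rw [map_mul, map_mul]
      have g1 : f (eval x (A 0)) * f (eval x F) ≤ B1 * μ :=
        mul_le_mul (hB1 x hx.le) (le_max_left _ _) (f.nonneg _) hB10
      have g2 : f (eval x (A 1)) * f (eval x G) ≤ B2 * μ :=
        mul_le_mul (hB2 x hx.le) (le_max_right _ _) (f.nonneg _) hB20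
      rw [hB, add_mul, add_mul, one_mul]
      linarith
    rw [div_le_iff₀ hB0, mul_comm]
    exact (pow_le_pow_left₀ (by positivity) hWδ N).trans e2
  choose ε hε0 hε using hnull
  set T : ℝ := 1 + ∑ s, (ε s)⁻¹ with hT
  have hT0 : 0 < T := by
    have : 0 ≤ ∑ s, (ε s)⁻¹ := Finset.sum_nonneg fun s _ => (inv_pos.2 (hε0 s)).le
    linarith
  have hle : ∀ s, T⁻¹ ≤ ε s := by
    intro s
    rw [inv_le_comm₀ hT0 (hε0 s)]
    have := Finset.single_le_sum (f := fun s => (ε s)⁻¹) (fun s _ => (inv_pos.2 (hε0 s)).le)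
      (Finset.mem_univ s)
    have h2 : (ε s)⁻¹ ≤ ∑ s, (ε s)⁻¹ := this
    linarith
  refine ⟨T⁻¹, inv_pos.2 hT0, fun x hx hsmall => ?_⟩
  by_contra hcon
  push Not at hcon
  have hch : ∀ y : P', ∃ ab : Fin 3 × Fin 3, δ < f (x ab.1 * y.1 ab.2 - x ab.2 * y.1 ab.1) := by
    intro y
    have hy := Finset.mem_filter.1 y.2
    obtain ⟨a, b, hab⟩ := hcon y.1 hy.1 hy.2.1 hy.2.2
    exact ⟨(a, b), hab⟩
  choose s hs using hch
  obtain ⟨m, hm⟩ := exists_nrm f (by norm_num : 0 < 3) x
  rw [hx] at hm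
  have h1 : δ ^ P'.card ≤ f (eval x (W (s, m))) := by
    rw [hWx, map_mul, hm, mul_one, map_prod]
    calc δ ^ P'.card = ∏ _y : P', δ := by rw [Finset.prod_const, Finset.card_univ, Fintype.card_coe]
      _ ≤ _ := Finset.prod_le_prod (fun _ _ => hδ.le) fun y _ => (hs y).le
  have h2 := hε (s, m) x hx h1
  have h3 := hle (s, m)
  linarith

lemma lam_smul (f : AbsoluteValue K ℝ) {n d : ℕ} (F : MvPolynomial (Fin n) K)
    (hF : F.IsHomogeneous d) (c : K) (hc : c ≠ 0) (x : Fin n → K) (hx : x ≠ 0)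
    (hFx : eval x F ≠ 0) : lam f d F (c • x) = lam f d F x := by
  have hcf := f.pos_iff.2 hc
  have h1 : nrm f (c • x) = f c * nrm f x := by
    have hn : 0 < n := by
      obtain ⟨j, _⟩ := Function.ne_iff.1 hx
      exact Fin.pos j
    apply le_antisymm
    · refine nrm_le (mul_nonneg hcf.le (nrm_nonneg f x)) fun j => ?_
      rw [Pi.smul_apply, smul_eq_mul, map_mul]
      exact mul_le_mul_of_nonneg_left (le_nrm f x j) hcf.le
    · obtain ⟨j, hj⟩ := exists_nrm f hn x
      rw [← hj, ← map_mul]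
      exact le_nrm f (c • x) j
  have hcx : c • x ≠ 0 := smul_ne_zero hc hx
  have hFc : eval (c • x) F ≠ 0 := by
    rw [eval_smul_hom F hF]
    exact mul_ne_zero (pow_ne_zero _ hc) hFx
  rw [lam_eq f _ _ hcx hFc, lam_eq f _ _ hx hFx, h1, eval_smul_hom F hF, map_mul, map_pow,
    Real.log_mul hcf.ne' (nrm_pos f hx).ne', Real.log_mul (pow_pos hcf _).ne'
      (f.pos_iff.2 hFx).ne', Real.log_pow]
  ring

/-- the smaller of two local heights is bounded by the local height of every line through the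
crossing point next to `x` -/
theorem pair_point (f : AbsoluteValue K ℝ) {F G : MvPolynomial (Fin 3) K} {d e : ℕ}
    (hd : 1 ≤ d) (he : 1 ≤ e) (hF : F.IsHomogeneous d) (hG : G.IsHomogeneous e)
    (P : Finset (Fin 3 → K)) (hP : ∀ y ∈ P, y ≠ 0)
    (hcommon : ∀ (L : Type) [Field L] [Algebra K L] (x : Fin 3 → L), x ≠ 0 → aeval x F = 0 →
      aeval x G = 0 → ∃ y ∈ P, ∃ c : L, x = c • fun b => algebraMap K L (y b))
    (hli : ∀ y ∈ P, eval y F = 0 → eval y G = 0 →
      LinearIndependent K ![fun b => eval y (pderiv b F), fun b => eval y (pderiv b G)]) :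
    ∃ B : ℝ, 0 ≤ B ∧ ∀ x : Fin 3 → K, x ≠ 0 → eval x F ≠ 0 → eval x G ≠ 0 →
      min (lam f d F x) (lam f e G x) ≤ B ∨ ∃ y ∈ P, ∀ M : MvPolynomial (Fin 3) K,
        M.IsHomogeneous 1 → eval y M = 0 → eval x M ≠ 0 →
          min (lam f d F x) (lam f e G x) ≤ lam f 1 M x + B + |Real.log (cs f M)| := by
  classical
  have hpt : ∀ y : P, ∃ δ : ℝ, 0 < δ ∧ ∃ B : ℝ, 0 ≤ B ∧ (eval y.1 F = 0 → eval y.1 G = 0 →
      ∀ x : Fin 3 → K, nrm f x = 1 → (∀ a b, f (x a * y.1 b - x b * y.1 a) ≤ δ) →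
      ∃ t : K, nrm f (x - t • y.1) ≤ B * max (f (eval x F)) (f (eval x G))) := by
    intro y
    by_cases h : eval y.1 F = 0 ∧ eval y.1 G = 0
    · obtain ⟨δ, hδ, B, hB, hB2⟩ := point_bound f hd he hF hG y.1 (hP y.1 y.2) h.1 h.2
        (hli y.1 y.2 h.1 h.2)
      exact ⟨δ, hδ, B, hB, fun _ _ => hB2⟩
    · exact ⟨1, one_pos, 0, le_rfl, fun h1 h2 => absurd ⟨h1, h2⟩ h⟩
  choose δ hδ0 B hB0 hB using hpt
  -- a common `δ`
  set T : ℝ := 1 + ∑ y, (δ y)⁻¹ with hT
  have hT0 : 0 < T := by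
    have : 0 ≤ ∑ y, (δ y)⁻¹ := Finset.sum_nonneg fun s _ => (inv_pos.2 (hδ0 s)).le
    linarith
  have hle : ∀ s, T⁻¹ ≤ δ s := by
    intro s
    rw [inv_le_comm₀ hT0 (hδ0 s)]
    have := Finset.single_le_sum (f := fun s => (δ s)⁻¹) (fun s _ => (inv_pos.2 (hδ0 s)).le)
      (Finset.mem_univ s)
    have h2 : (δ s)⁻¹ ≤ ∑ s, (δ s)⁻¹ := this
    linarith
  obtain ⟨ε, hε0, hε⟩ := cover f hF hG P hcommon T⁻¹ (inv_pos.2 hT0)
  set B' : ℝ := 1 + ∑ y, B y with hB'
  have hB'1 : 1 ≤ B' := by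
    have : 0 ≤ ∑ y, B y := Finset.sum_nonneg fun s _ => hB0 s
    linarith
  refine ⟨|Real.log ε| + Real.log B', add_nonneg (abs_nonneg _) (Real.log_nonneg hB'1),
    fun x hx hFx hGx => ?_⟩
  -- normalise
  obtain ⟨m, hm⟩ := exists_nrm f (by norm_num : 0 < 3) x
  have hnx := nrm_pos f hx
  have hxm : x m ≠ 0 := by
    intro h
    rw [h, map_zero] at hm
    exact hnx.ne hm
  set c : K := (x m)⁻¹ with hc
  have hc0 : c ≠ 0 := inv_ne_zero hxm
  set z : Fin 3 → K := c • x with hz
  have hz0 : z ≠ 0 := smul_ne_zero hc0 hx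
  have hnz : nrm f z = 1 := by
    apply le_antisymm
    · refine nrm_le zero_le_one fun j => ?_
      rw [hz, Pi.smul_apply, smul_eq_mul, map_mul, hc, map_inv₀, hm, inv_mul_le_iff₀ hnx, mul_one]
      exact le_nrm f x j
    · have := le_nrm f z m
      rwa [hz, Pi.smul_apply, smul_eq_mul, hc, inv_mul_cancel₀ hxm, map_one] at this
  have hzev : ∀ (Q : MvPolynomial (Fin 3) K) (r : ℕ), Q.IsHomogeneous r → eval x Q ≠ 0 →
      eval z Q ≠ 0 ∧ lam f r Q x = -Real.log (f (eval z Q)) := by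
    intro Q r hQ hQx
    have h1 : eval z Q ≠ 0 := by
      rw [hz, eval_smul_hom Q hQ]
      exact mul_ne_zero (pow_ne_zero _ hc0) hQx
    refine ⟨h1, ?_⟩
    rw [← lam_smul f Q hQ c hc0 x hx hQx, lam_eq f _ _ hz0 h1, hnz, Real.log_one, mul_zero,
      zero_sub]
  obtain ⟨hFz, hF'⟩ := hzev F d hF hFx
  obtain ⟨hGz, hG'⟩ := hzev G e hG hGx
  set μ := max (f (eval z F)) (f (eval z G)) with hμ
  have hμ0 : 0 < μ := (f.pos_iff.2 hFz).trans_le (le_max_left _ _)
  have hmin : min (lam f d F x) (lam f e G x) = -Real.log μ := by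
    rw [hF', hG', hμ, min_neg_neg]
    congr 1
    rcases le_total (f (eval z F)) (f (eval z G)) with h | h
    · rw [max_eq_right h, max_eq_right (Real.log_le_log (f.pos_iff.2 hFz) h)]
    · rw [max_eq_left h, max_eq_left (Real.log_le_log (f.pos_iff.2 hGz) h)]
  rw [hmin]
  by_cases hsmall : μ < ε
  · right
    obtain ⟨y, hy, hyF, hyG, hab⟩ := hε z hnz hsmall
    refine ⟨y, hy, fun M hM hyM hxM => ?_⟩
    obtain ⟨t, ht⟩ := hB ⟨y, hy⟩ hyF hyG z hnz fun a b => (hab a b).trans (hle _)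
    obtain ⟨hMz, hM'⟩ := hzev M 1 hM hxM
    have h1 : eval z M = eval (z - t • y) M := by
      -- linearity
      have hlin : ∀ u v : Fin 3 → K, eval (u + v) M = eval u M + eval v M := by
        intro u v
        rw [eval_eq, eval_eq, eval_eq, ← Finset.sum_add_distrib]
        refine Finset.sum_congr rfl fun k hk => ?_
        have hk1 : k.degree = 1 := by
          have := hM (mem_support_iff.1 hk)
          exact (DFunLike.congr_fun (Finsupp.degree_eq_weight_one (σ := Fin 3) (R := ℕ)) k).trans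
            this
        obtain ⟨j, hj⟩ : ∃ j, k = Finsupp.single j 1 := by
          exact (Finsupp.sum_eq_one_iff k).1 hk1
        rw [hj]
        simp [mul_add]
      have e1 : z = (z - t • y) + t • y := by simp
      conv_lhs => rw [e1]
      rw [hlin, eval_smul_hom M hM, hyM, mul_zero, add_zero]
    have hcs : 0 < cs f M := by
      by_contra hcon
      have h0 : cs f M = 0 := le_antisymm (not_lt.1 hcon) (cs_nonneg f M)
      have := abv_mv f M hM z
      rw [h0, zero_mul] at this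
      have := f.pos_iff.2 hMz
      linarith
    have h2 : f (eval z M) ≤ cs f M * (B' * μ) := by
      rw [h1]
      refine (abv_mv f M hM _).trans ?_
      rw [pow_one]
      refine mul_le_mul_of_nonneg_left (ht.trans ?_) hcs.le
      refine mul_le_mul_of_nonneg_right ?_ hμ0.le
      have := Finset.single_le_sum (f := B) (fun s _ => hB0 s)
        (Finset.mem_univ (⟨y, hy⟩ : P))
      linarith
    have h3 := Real.log_le_log (f.pos_iff.2 hMz) h2
    rw [Real.log_mul hcs.ne' (by positivity), Real.log_mul (by positivity) hμ0.ne'] at h3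
    rw [hM']
    have := le_abs_self (Real.log (cs f M))
    have := abs_nonneg (Real.log ε)
    linarith
  · left
    push Not at hsmall
    have h1 := Real.log_le_log hε0 hsmall
    have := neg_abs_le (Real.log ε)
    have := Real.log_nonneg hB'1
    linarith

end Pool.Agent.W180.OP
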